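import Mathlib
import Pool.Agent.U707.LI.StmP

/-!
# Project LI2, package ALG
-/

set_option autoImplicit false

namespace Pool.Agent.U669.LIP

open Module Matrix Pool.Agent.U707.LI

section abstract

variable {k A R : Type} [Field k] [CommRing A] [Algebra k A] [Ring R] [Algebra k R]
  (T : R →ₗ[k] A) (hc : ∀ x y, T (x * y) = T (y * x))
  (hr : ∀ x y z, T x * T y * T z + T (x * y * z) + T (x * z * y) =
    T (x * y) * T z + T (x * z) * T y + T (y * z) * T x)

include hc hr

/-- the relation for `x, x, y` -/
theorem rel2 (x y : R) : 2 * T (x * x * y) =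
    2 * (T x * T (x * y)) - (T x * T x - T (x * x)) * T y := by
  have h := hr x x y
  have h1 : T (x * y * x) = T (x * x * y) := by
    rw [hc (x * y) x, mul_assoc]
  rw [h1] at h
  linear_combination h

/-- powers of an element with nilpotent values -/
theorem pow_mem (I : Ideal A) (h2 : IsUnit (2 : A)) (e : R) (he : ∀ y, T (e * y) ∈ I) (j : ℕ) :
    ∀ y, T (e ^ (2 * j) * y) ∈ I ^ j := by
  have he1 : T e ∈ I := by
    have := he 1
    rwa [mul_one] at this
  induction j with
  | zero =>
    intro y
    simp
  | succ j ih =>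
    intro y
    have e1 : e ^ (2 * (j + 1)) * y = e * e * (e ^ (2 * j) * y) := by
      have e2 : e ^ (2 * (j + 1)) = e * e * e ^ (2 * j) := by
        rw [mul_add, mul_one, add_comm, pow_add, pow_two]
      rw [e2, mul_assoc]
    have h := rel2 T hc hr e (e ^ (2 * j) * y)
    rw [← e1] at h
    have h3 : T (e * (e ^ (2 * j) * y)) ∈ I ^ j := by
      have : T (e * (e ^ (2 * j) * y)) = T (e ^ (2 * j) * (e * y)) := by
        rw [← mul_assoc, ← mul_assoc, (Commute.pow_self e (2 * j)).eq]
      rw [this]
      exact ih _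
    have h4 : 2 * T (e ^ (2 * (j + 1)) * y) ∈ I ^ (j + 1) := by
      rw [h, pow_succ']
      refine Ideal.sub_mem _ ?_ ?_
      · exact Ideal.mul_mem_left _ _ (Ideal.mul_mem_mul he1 h3)
      · refine Ideal.mul_mem_mul ?_ (ih y)
        exact Ideal.sub_mem _ (Ideal.mul_mem_left _ _ he1) (he e)
    obtain ⟨u, hu⟩ := h2
    have h5 := Ideal.mul_mem_left (I ^ (j + 1)) (↑u⁻¹ : A) h4
    rw [← hu, ← mul_assoc, Units.inv_mul, one_mul] at h5
    exact h5

/-- the abstract form with matrices -/
theorem main_abs [IsAlgClosed k] [FiniteDimensional k A] (hk : (2 : k) ≠ 0)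
    (ρ : R →ₐ[k] Matrix (Fin 2) (Fin 2) k) (hρ : Function.Surjective ρ) (l : A →ₗ[k] k)
    (hl : ∀ x, (ρ x).trace = l (T x)) : ∃ φ : A →ₐ[k] k, ∀ x, φ (T x) = (ρ x).trace := by
  classical
  have h2 : IsUnit (2 : A) := by
    have : IsUnit (algebraMap k A 2) := (isUnit_iff_ne_zero.2 hk).map _
    rwa [map_ofNat] at this
  have : IsArtinianRing A := IsArtinianRing.of_finite k A
  -- the key: some maximal ideal
  have key : ∃ m : MaximalSpectrum A, ∀ x, (∀ y, T (x * y) ∈ m.asIdeal) → ρ x = 0 := by
    by_contra hcon
    push Not at hcon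
    -- elements e_m
    have hem : ∀ m : MaximalSpectrum A, ∃ e : R, (∀ y, T (e * y) ∈ m.asIdeal) ∧ ρ e = 1 := by
      intro m
      obtain ⟨x, hx, hx0⟩ := hcon m
      have : ∃ i j, ρ x i j ≠ 0 := by
        by_contra h
        push Not at h
        exact hx0 (Matrix.ext h)
      obtain ⟨i, j, hij⟩ := this
      choose u hu using fun a : Fin 2 => hρ (Matrix.single a i (1 : k))
      choose w hw using fun a : Fin 2 => hρ (Matrix.single j a ((ρ x i j)⁻¹))
      refine ⟨u 0 * x * w 0 + u 1 * x * w 1, fun y => ?_, ?_⟩
      · have h3 : ∀ a, T (u a * x * w a * y) ∈ m.asIdeal := by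
          intro a
          have : T (u a * x * w a * y) = T (x * (w a * y * u a)) := by
            rw [mul_assoc, mul_assoc, hc (u a), mul_assoc]
          rw [this]
          exact hx _
        rw [add_mul, map_add]
        exact Ideal.add_mem _ (h3 0) (h3 1)
      · rw [map_add, map_mul, map_mul, map_mul, map_mul, hu, hu, hw, hw]
        ext a b
        simp only [Matrix.add_apply, Matrix.mul_apply, Fin.sum_univ_two, Matrix.single_apply,
          Matrix.one_apply]
        fin_cases i <;> fin_cases j <;> fin_cases a <;> fin_cases b <;> simp at hij ⊢ <;>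
          first
            | exact mul_inv_cancel₀ hij

    have hS : ∀ S : Finset (MaximalSpectrum A), ∃ e : R, (∀ m ∈ S, ∀ y, T (e * y) ∈ m.asIdeal) ∧ ρ e = 1 := by
      intro S
      induction S using Finset.induction_on with
      | empty => exact ⟨1, fun m hm => absurd hm (Finset.notMem_empty m), map_one ρ⟩
      | insert m S _ ih =>
        obtain ⟨e, he, he1⟩ := ih
        obtain ⟨e', he', he1'⟩ := hem m
        refine ⟨e' * e, fun m' hm' y => ?_, by rw [map_mul, he1, he1', mul_one]⟩
        rcases Finset.mem_insert.1 hm' with rfl | hm'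
        · rw [mul_assoc]
          exact he' _
        · rw [mul_assoc, hc, mul_assoc]
          exact he m' hm' _
    have : Fintype (MaximalSpectrum A) := Fintype.ofFinite _
    obtain ⟨e, he, he1⟩ := hS Finset.univ
    have heJ : ∀ y, T (e * y) ∈ Ideal.jacobson (⊥ : Ideal A) := by
      intro y
      rw [Ideal.jacobson, Ideal.mem_sInf]
      rintro J ⟨-, hJ⟩
      exact he ⟨J, hJ⟩ (Finset.mem_univ _) y
    obtain ⟨r, hr0⟩ := IsArtinianRing.isNilpotent_jacobson_bot (R := A)
    have h3 := pow_mem T hc hr _ h2 e heJ r 1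
    rw [hr0, mul_one] at h3
    have h4 : T (e ^ (2 * r)) = 0 := by simpa using h3
    have h5 := hl (e ^ (2 * r))
    rw [h4, map_zero, map_pow, he1, one_pow, Matrix.trace_one] at h5
    simp at h5
    exact hk h5
  obtain ⟨m, hm⟩ := key
  have hmax : m.asIdeal.IsMaximal := m.isMaximal
  have hbij : Function.Bijective (algebraMap k (A ⧸ m.asIdeal)) :=
    IsAlgClosed.algebraMap_bijective_of_isIntegral
  let ψ : k ≃ₐ[k] (A ⧸ m.asIdeal) := AlgEquiv.ofBijective (Algebra.ofId k _) hbij
  let φ : A →ₐ[k] k := (ψ.symm : (A ⧸ m.asIdeal) →ₐ[k] k).comp (Ideal.Quotient.mkₐ k m.asIdeal)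
  have hφ : ∀ a, φ a = 0 → a ∈ m.asIdeal := by
    intro a ha
    have h1 : ψ.symm (Ideal.Quotient.mk m.asIdeal a) = 0 := ha
    rw [EmbeddingLike.map_eq_zero_iff] at h1
    exact Ideal.Quotient.eq_zero_iff_mem.1 h1
  have hone : ∀ x, ρ x 0 1 ≠ 0 → φ (T x) = (ρ x).trace := by
    intro x hx
    have hz : ρ ((2 : k) • (x * x) - (2 * φ (T x)) • x + (φ (T x) * φ (T x) - φ (T (x * x))) • (1 : R)) = 0 := by
      apply hm
      intro y
      apply hφ
      have h := congrArg φ (rel2 T hc hr x y)
      simp only [map_mul, map_sub, map_ofNat] at h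
      simp only [add_mul, sub_mul, smul_mul_assoc, one_mul, map_add, map_sub, map_smul, smul_eq_mul]
      linear_combination h
    have h01 := congrFun (congrFun hz 0) 1
    simp only [map_add, map_sub, map_smul, map_mul, map_one, Matrix.add_apply, Matrix.sub_apply,
      Matrix.smul_apply, smul_eq_mul, Matrix.mul_apply, Fin.sum_univ_two, Matrix.zero_apply,
      Matrix.one_apply, Fin.isValue, zero_ne_one, if_false, mul_zero, add_zero] at h01
    have h6 : (2 * ρ x 0 1) * ((ρ x 0 0 + ρ x 1 1) - φ (T x)) = 0 := by linear_combination h01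
    rcases mul_eq_zero.1 h6 with h7 | h7
    · rcases mul_eq_zero.1 h7 with h8 | h8
      · exact absurd h8 hk
      · exact absurd h8 hx
    · rw [Matrix.trace_fin_two]
      linear_combination -h7
  refine ⟨φ, fun x => ?_⟩
  by_cases hx : ρ x 0 1 = 0
  · obtain ⟨y, hy⟩ := hρ (Matrix.single 0 1 (1 : k))
    have hy1 : ρ y 0 1 ≠ 0 := by rw [hy]; simp
    have h1 := hone y hy1
    have h2' := hone (x + y) (by rw [map_add, Matrix.add_apply, hx, zero_add]; exact hy1)
    rw [map_add, map_add, map_add, Matrix.trace_add, h1] at h2'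
    exact add_right_cancel h2'
  · exact hone x hx

end abstract

theorem t_ALG : S_ALG := by
  intro G k A V _ _ _ _ _ _ _ _ T ρ l hk hT hV hspan htr
  classical
  have : FiniteDimensional k V := FiniteDimensional.of_finrank_pos (by rw [hV]; norm_num)
  let b : Basis (Fin 2) k V := (finBasisOfFinrankEq k V hV)
  let T' : MonoidAlgebra k G →ₗ[k] A :=
    (Finsupp.linearCombination k T).comp (MonoidAlgebra.coeffLinearEquiv k).toLinearMap
  have hT' : ∀ g a, T' (MonoidAlgebra.single g a) = a • T g := by
    intro g a
    show Finsupp.linearCombination k T (Finsupp.single g a) = a • T g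
    exact Finsupp.linearCombination_single k a g
  let ρ1 : MonoidAlgebra k G →ₐ[k] Module.End k V := MonoidAlgebra.lift k (Module.End k V) G ρ
  have hρ1 : ∀ g a, ρ1 (MonoidAlgebra.single g a) = a • ρ g := fun g a => MonoidAlgebra.lift_single ρ g a
  let ρ' : MonoidAlgebra k G →ₐ[k] Matrix (Fin 2) (Fin 2) k :=
    ((LinearMap.toMatrixAlgEquiv b : Module.End k V ≃ₐ[k] Matrix (Fin 2) (Fin 2) k) :
      Module.End k V →ₐ[k] Matrix (Fin 2) (Fin 2) k).comp ρ1
  have htrm : ∀ f : Module.End k V, (LinearMap.toMatrixAlgEquiv b f).trace = LinearMap.trace k V f := by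
    intro f
    rw [LinearMap.trace_eq_matrix_trace k b]
    rfl
  have hsur1 : Function.Surjective ρ1 := by
    have h : (⊤ : Submodule k (Module.End k V)) ≤ LinearMap.range ρ1.toLinearMap := by
      rw [← hspan, Submodule.span_le]
      rintro _ ⟨g, rfl⟩
      refine ⟨MonoidAlgebra.single g 1, ?_⟩
      show ρ1 (MonoidAlgebra.single g 1) = ρ g
      rw [hρ1, one_smul]
    intro f
    obtain ⟨x, hx⟩ := h (Submodule.mem_top (x := f))
    exact ⟨x, hx⟩
  have hsur : Function.Surjective ρ' := (LinearMap.toMatrixAlgEquiv b).surjective.comp hsur1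
  have hcomm : ∀ x y, T' (x * y) = T' (y * x) := by
    intro x y
    induction x using MonoidAlgebra.induction_linear with
    | zero => simp
    | add x x' h1 h2 => rw [add_mul, mul_add, map_add, map_add, h1, h2]
    | single g a =>
      induction y using MonoidAlgebra.induction_linear with
      | zero => simp
      | add y y' h1 h2 => rw [add_mul, mul_add, map_add, map_add, h1, h2]
      | single h c =>
        rw [MonoidAlgebra.single_mul_single, MonoidAlgebra.single_mul_single, hT', hT', hT.comm g h,
          mul_comm a c]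
  have hrel : ∀ x y z, T' x * T' y * T' z + T' (x * y * z) + T' (x * z * y) =
      T' (x * y) * T' z + T' (x * z) * T' y + T' (y * z) * T' x := by
    intro x y z
    induction x using MonoidAlgebra.induction_linear with
    | zero => simp
    | add x x' h1 h2 =>
      simp only [add_mul, mul_add, map_add] at h1 h2 ⊢
      linear_combination h1 + h2
    | single g a =>
      induction y using MonoidAlgebra.induction_linear with
      | zero => simp
      | add y y' h1 h2 =>
        simp only [add_mul, mul_add, map_add] at h1 h2 ⊢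
        linear_combination h1 + h2
      | single h c =>
        induction z using MonoidAlgebra.induction_linear with
        | zero => simp
        | add z z' h1 h2 =>
          simp only [add_mul, mul_add, map_add] at h1 h2 ⊢
          linear_combination h1 + h2
        | single u d =>
          simp only [MonoidAlgebra.single_mul_single, hT', Algebra.smul_def, map_mul]
          linear_combination (algebraMap k A a * algebraMap k A c * algebraMap k A d) * hT.rel g h u
  have hl : ∀ x, (ρ' x).trace = l (T' x) := by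
    intro x
    show (LinearMap.toMatrixAlgEquiv b (ρ1 x)).trace = l (T' x)
    rw [htrm]
    induction x using MonoidAlgebra.induction_linear with
    | zero => simp
    | add x x' h1 h2 => rw [map_add, map_add, map_add, map_add, h1, h2]
    | single g a => rw [hρ1, hT', map_smul, map_smul, htr]
  obtain ⟨φ, hφ⟩ := main_abs T' hcomm hrel hk ρ' hsur l hl
  refine ⟨φ, fun g => ?_⟩
  have h := hφ (MonoidAlgebra.single g 1)
  rw [hT', one_smul] at h
  rw [h]
  show (LinearMap.toMatrixAlgEquiv b (ρ1 (MonoidAlgebra.single g 1))).trace = _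
  rw [htrm, hρ1, one_smul]

end Pool.Agent.U669.LIP
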